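import Pool.Agent.L7h10.QX.Flz5

/-!
# Project QX, part FLX (helper10; adapted from helper65's FLE, FLS)
-/

namespace Pool.Agent.L7h10.QX

open Pool.Agent.L7h14.QX
open Pool.Agent.L7h43.QU (B5 E5)
open Pool.Agent.TH176.Nag (Emp Emp_flat)
open Pool.Agent.TH603.Sur (Sur Sur_flat)
open Pool.Agent.TH469.SX (Fl)
open Pool.Agent.TH864.SX (Slp)

theorem s_FLX : S_FLX := by
  intro K d h hd1 hd11
  obtain ⟨n, hn⟩ : ∃ n : ℤ, (d : ℤ) = 5 * n + 1 := ⟨(d : ℤ) / 5, by omega⟩
  have hn2 : 2 ≤ n := by omega
  have hη : ((d : ℝ) - 1) / 5 = n := by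
    have : (d : ℝ) = 5 * n + 1 := by exact_mod_cast hn
    rw [this]
    ring
  have hK := h.K0
  have hK25 : (25 : ℝ) < K := by exact_mod_cast h.hMK
  have hKe : K * (K - 25) = 25 := by
    have := h.eq
    push_cast at this
    linarith
  have hK26 : K < 26 := by
    by_contra hc
    push Not at hc
    nlinarith
  have hnR : (2 : ℝ) ≤ n := by exact_mod_cast hn2
  -- the columns `1`, `2` of the block
  have hlow : ∀ {t j : ℤ}, ((t, j) : ℤ × ℤ) ∈ B5 25 K d → 0 ≤ t → t ≤ 2 → n - t ≤ j ∧ j ≤ n := by
    intro t j hp h0 h2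
    obtain ⟨g1, g2, g3⟩ := hp
    simp only at g1 g2 g3
    rw [hη] at g2 g3
    push_cast at g2
    have ht : (t : ℝ) ≤ 2 := by exact_mod_cast h2
    have ht0 : (0 : ℝ) ≤ t := by exact_mod_cast h0
    constructor
    · by_contra hc
      have hc' : t + 1 ≤ n - j := by omega
      have h5 : (t : ℝ) + 1 ≤ n - j := by exact_mod_cast hc'
      have h6 : (K - 25) * ((t : ℝ) + 1) ≤ t := by
        have := mul_le_mul_of_nonneg_left h5 (by linarith : (0 : ℝ) ≤ K - 25)
        linarith
      have h7 : K * ((K - 25) * ((t : ℝ) + 1)) ≤ K * t := mul_le_mul_of_nonneg_left h6 hK.le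
      have h8 : 25 * ((t : ℝ) + 1) ≤ K * t := by
        have : K * ((K - 25) * ((t : ℝ) + 1)) = 25 * (t + 1) := by linear_combination (t + 1 : ℝ) * hKe
        linarith
      nlinarith
    · by_contra hc
      have hc' : n - j ≤ -1 := by omega
      have h5 : (n : ℝ) - j ≤ -1 := by exact_mod_cast hc'
      nlinarith
  constructor
  · intro ι w hE
    refine Emp_flat (S' := Fl 1 K (K * ((d - 1) / 5)) ∪ X3) 1 0 1 0 (by norm_num) ?_ hE
    rintro ⟨t, j⟩ T k hp hp' hk
    have e : ((1 * t + 0 * j, (k : ℤ)) : ℤ × ℤ) = (t, (k : ℤ)) := by simp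
    have e' : ((t - 0 * T, j + 1 * T) : ℤ × ℤ) = (t, j + T) := by simp
    simp only at hp' ⊢
    rw [e]
    rw [e'] at hp'
    -- the abscissa
    have hnn : ∀ {t j : ℤ}, ((t, j) : ℤ × ℤ) ∈ B5 25 K d ∪ Y3 d → 0 ≤ t := by
      intro t j hp
      rcases hp with hp | ⟨z1, z2, z3⟩
      · rcases b5_pos h hp with h1 | ⟨h1, -⟩ <;> omega
      · simp only at z1
        omega
    have hcol : ∀ {t j : ℤ}, ((t, j) : ℤ × ℤ) ∈ B5 25 K d ∪ Y3 d → t ≤ 2 →
        n - t ≤ j ∧ j ≤ n := by
      intro t j hp ht2
      have h0 := hnn hp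
      rcases hp with hp | ⟨z1, z2, z3⟩
      · exact hlow hp h0 ht2
      · simp only at z1 z2 z3
        omega
    have ht0 := hnn hp
    rcases lt_or_ge (2 : ℤ) t with ht | ht
    · -- long columns: only the block
      have hB : ∀ {j : ℤ}, ((t, j) : ℤ × ℤ) ∈ B5 25 K d ∪ Y3 d → ((t, j) : ℤ × ℤ) ∈ B5 25 K d := by
        intro j hp
        rcases hp with hp | ⟨z1, z2, z3⟩
        · exact hp
        · simp only at z1
          omega
      left
      exact col5 h hk (by omega) (hB hp) (hB hp')
    · have h1 := hcol hp ht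
      have h2 := hcol hp' ht
      have hkt : (k : ℤ) ≤ t := by omega
      rcases (by omega : (k : ℤ) = t ∨ (k : ℤ) < t) with h3 | h3
      · right
        have h5 : t = 0 ∨ t = 1 ∨ t = 2 := by omega
        rw [h3]
        rcases h5 with h5 | h5 | h5 <;> subst h5 <;> simp [X3]
      · left
        refine ⟨by simp only; omega, by simp, ?_, ?_⟩
        · simp only
          push_cast
          omega
        · simp only
          rw [hη]
          push_cast
          have h6 : (t : ℝ) ≤ 2 := by exact_mod_cast ht
          have h7 : (k : ℝ) ≤ 1 := by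
            have : k ≤ 1 := by omega
            exact_mod_cast this
          nlinarith
  · intro ι _ w hS
    refine Sur_flat (S' := Fl 1 K (K * ((d - 1) / 5)) ∪ X3) 1 0 1 0 (by norm_num) ?_ hS
    rintro ⟨t, k⟩ hp
    have e : ∀ s : ℤ, ((1 * t - 0 * s, 0 * t + 1 * s) : ℤ × ℤ) = (t, s) := by
      intro s
      simp
    rcases hp with ⟨g1, g2, g3, g4⟩ | hp
    · simp only at g1 g2 g3 g4
      refine ⟨g2, ?_⟩
      rw [hη] at g4
      obtain ⟨x, hx⟩ : ∃ x : ℝ, x = (n : ℝ) - 1 * K * t / 25 := ⟨_, rfl⟩
      refine ⟨max 0 ⌈x⌉, fun s hs1 hs2 => ?_⟩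
      simp only at hs2 ⊢
      rw [e]
      left
      refine ⟨(le_max_left _ _).trans hs1, ?_, ?_⟩
      · simp only
        rw [h.low, hη]
        have h5 : (⌈x⌉ : ℝ) ≤ s := by exact_mod_cast (le_max_right _ _).trans hs1
        have h6 := Int.le_ceil x
        push_cast
        linarith
      · simp only
        rcases le_total ⌈x⌉ 0 with h5 | h5
        · rw [max_eq_left h5] at hs2
          have h6 : (s : ℝ) ≤ k := by
            have : s ≤ k := by omega
            exact_mod_cast this
          have h7 : K * (s : ℝ) ≤ K * k := mul_le_mul_of_nonneg_left h6 hK.le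
          rw [hη]
          linarith
        · rw [max_eq_right h5] at hs2
          rw [h.up, hη]
          have h6 : (s : ℝ) + 1 ≤ ⌈x⌉ + t := by
            have h8 : s + 1 ≤ ⌈x⌉ + t := by
              push_cast at g3
              omega
            exact_mod_cast h8
          have h7 := Int.ceil_lt_add_one x
          push_cast
          linarith
    · have hB : ∀ {t s : ℤ}, 0 ≤ s → (K - 25) * ((n : ℝ) - s) ≤ t → (t : ℝ) ≤ K * ((n : ℝ) - s) →
          ((t, s) : ℤ × ℤ) ∈ B5 25 K d := by
        intro t s h1 h2 h3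
        refine ⟨h1, ?_, ?_⟩
        · simp only
          rw [hη]
          push_cast
          exact h2
        · simp only
          rw [hη]
          exact h3
      have hX : (t = 0 ∧ k = 0) ∨ (t = 1 ∧ k = 1) ∨ (t = 2 ∧ k = 2) := by
        simpa [X3] using hp
      have hk0 : 0 ≤ k := by omega
      refine ⟨hk0, n - k, fun s hs1 hs2 => ?_⟩
      simp only at hs2 ⊢
      rw [e]
      have hsn : s ≤ n := by omega
      rcases hX with ⟨rfl, rfl⟩ | ⟨rfl, rfl⟩ | ⟨rfl, rfl⟩
      · obtain rfl : s = n := by omega
        left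
        exact hB (by omega) (by simp) (by simp)
      · rcases (by omega : s = n ∨ s = n - 1) with h5 | h5
        · right
          subst h5
          exact ⟨Or.inl rfl, by simp only; omega, by simp only; omega⟩
        · left
          subst h5
          refine hB (by omega) ?_ ?_
          · push_cast
            linarith
          · push_cast
            linarith
      · rcases (by omega : s = n ∨ s = n - 1 ∨ s = n - 2) with h5 | h5 | h5
        · right
          subst h5
          exact ⟨Or.inr rfl, by simp only; omega, by simp only; omega⟩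
        · left
          subst h5
          refine hB (by omega) ?_ ?_
          · push_cast
            linarith
          · push_cast
            linarith
        · left
          subst h5
          refine hB (by omega) ?_ ?_
          · push_cast
            linarith
          · push_cast
            linarith

end Pool.Agent.L7h10.QX
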