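import Pool.Agent.L7h14.QX.Stm
import Pool.Agent.TH603.Sur.Flat

/-!
# Project QX, part FLZ5 (helper10; adapted from helper65's FLZ)
-/

namespace Pool.Agent.L7h10.QX

open Pool.Agent.L7h14.QX
open Pool.Agent.L7h43.QU (B5 E5)
open Pool.Agent.TH176.Nag (Emp Emp_flat)
open Pool.Agent.TH603.Sur (Sur)
open Pool.Agent.TH469.SX (Fl)
open Pool.Agent.TH864.SX (Slp)

/-- a point of the block is on the apex or has positive abscissa -/
theorem b5_pos {M q : ℕ} {K : ℝ} {d : ℕ} (h : Slp M q K) {t j : ℤ}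
    (hp : ((t, j) : ℤ × ℤ) ∈ B5 M K d) : 0 < t ∨ (t = 0 ∧ (d : ℤ) = 5 * j + 1) := by
  obtain ⟨g1, g2, g3⟩ := hp
  simp only at g1 g2 g3
  have hK := h.K0
  have hMK := h.hMK
  have hM : (0 : ℝ) < M := by exact_mod_cast h.hM
  by_contra hc
  push Not at hc
  have ht : (t : ℝ) ≤ 0 := by exact_mod_cast hc.1
  have e1 : 0 ≤ (M : ℝ) * (((d : ℝ) - 1) / 5 - j) := by nlinarith
  have e2 : 0 ≤ ((d : ℝ) - 1) / 5 - j := by
    by_contra h1
    push Not at h1
    nlinarith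
  have e3 : ((d : ℝ) - 1) / 5 - j ≤ 0 := by
    by_contra h1
    push Not at h1
    have : 0 < (K - M) * (((d : ℝ) - 1) / 5 - j) := mul_pos (by linarith) h1
    linarith
  have e4 : (d : ℝ) = 5 * j + 1 := by linarith
  have e5 : (d : ℤ) = 5 * j + 1 := by exact_mod_cast e4
  have e6 : ((d : ℝ) - 1) / 5 - j = 0 := le_antisymm e3 e2
  rw [e6] at g2
  have e7 : (0 : ℝ) ≤ t := by linarith
  have e8 : (0 : ℤ) ≤ t := by exact_mod_cast e7
  exact hc.2 (by omega) e5

/-- the end of a column is not an integer -/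
theorem b5_ne {M q : ℕ} {K : ℝ} {d : ℕ} (h : Slp M q K) {t z : ℤ} (ht : t ≠ 0) :
    ((d : ℝ) - 1) / 5 - q * K * t / M ≠ z := by
  intro h1
  have hM : (0 : ℝ) < M := by exact_mod_cast h.hM
  have hq : (0 : ℝ) < q := by exact_mod_cast h.hq
  have ht' : (t : ℝ) ≠ 0 := by exact_mod_cast ht
  apply h.irr
  refine ⟨(((d : ℚ) - 1) / 5 - z) * M / (q * t), ?_⟩
  push_cast
  rw [← h1]
  field_simp
  ring

/-- a column of the block -/
theorem col5 {M q : ℕ} {K : ℝ} {d : ℕ} (h : Slp M q K) {t j T : ℤ} {k : ℕ} (hk : (k : ℤ) ≤ T)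
    (ht : 0 < t) (hp : ((t, j) : ℤ × ℤ) ∈ B5 M K d) (hp' : ((t, j + T) : ℤ × ℤ) ∈ B5 M K d) :
    ((t, (k : ℤ)) : ℤ × ℤ) ∈ Fl q K (K * ((d - 1) / 5)) := by
  have hK := h.K0
  have hq : (0 : ℝ) < q := by exact_mod_cast h.hq
  obtain ⟨g1, g2, -⟩ := hp
  obtain ⟨-, -, g3⟩ := hp'
  simp only at g1 g2 g3
  have hkR : (k : ℝ) ≤ T := by exact_mod_cast hk
  have hj0 : (0 : ℝ) ≤ j := by exact_mod_cast g1
  push_cast at g3
  have g2' := h.low.1 g2
  have g3' := h.up.1 g3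
  have hT : (T : ℝ) ≤ q * t := by linarith
  refine ⟨by simp only; omega, by simp, ?_, ?_⟩
  · simp only
    have h5 : (k : ℝ) ≤ q * t := by linarith
    have h6 : (k : ℤ) ≤ q * t := by exact_mod_cast h5
    rcases h6.lt_or_eq with h7 | h7
    · exact h7
    · exfalso
      have h8 : (k : ℝ) = q * t := by exact_mod_cast h7
      refine b5_ne (d := d) h (t := t) (z := j) (by omega) ?_
      linarith
  · simp only
    have h6 : K * (k : ℝ) ≤ K * (j + T) := mul_le_mul_of_nonneg_left (by linarith) hK.le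
    push_cast
    linarith

theorem s_FLZ5 : S_FLZ5 := by
  intro M q K d ι w h hd hE
  refine Emp_flat (S' := Fl q K (K * ((d - 1) / 5)) ∪ {((-1, 0) : ℤ × ℤ)}) 1 0 1 0
    (by norm_num) ?_ hE
  rintro ⟨t, j⟩ T k hp hp' hk
  have e : ((1 * t + 0 * j, (k : ℤ)) : ℤ × ℤ) = (t, (k : ℤ)) := by simp
  have e' : ((t - 0 * T, j + 1 * T) : ℤ × ℤ) = (t, j + T) := by simp
  simp only at hp' ⊢
  rw [e]
  rw [e'] at hp'
  have hpos : ∀ {t j : ℤ}, ((t, j) : ℤ × ℤ) ∈ B5 M K d → 0 < t := by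
    intro t j hp
    have hj0 : 0 ≤ j := hp.1
    rcases b5_pos h hp with h1 | ⟨-, h1⟩
    · exact h1
    · exfalso
      omega
  rcases hp with hp | ⟨z1, z2, z3⟩
  · have ht := hpos hp
    rcases hp' with hp' | ⟨z1, z2, z3⟩
    · left
      exact col5 h hk ht hp hp'
    · exfalso
      simp only at z1
      omega
  · simp only at z1 z2 z3
    rcases hp' with hp' | ⟨y1, y2, y3⟩
    · exfalso
      have := hpos hp'
      omega
    · simp only at y1 y2 y3
      right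
      have h1 : T = 0 := by linarith
      have h2 : k = 0 := by omega
      rw [h2, z1]
      rfl

end Pool.Agent.L7h10.QX
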