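import Pool.Agent.L7h14.QX.Stm
import Pool.Agent.L7h23.QU.One

/-!
# Project QX, parts ONEZ5 and ONEX5 (helper10; adapted from helper23's ONE)
-/

namespace Pool.Agent.L7h10.QX

open Pool.Agent.L7h14.QX
open Pool.Agent.L7h43.QU (B5 E5 hh)
open Pool.Agent.L7h23.QU (hrow hh1 hh3)
open Pool.Agent.TH176.Nag (Emp)
open Pool.Agent.TH603.Sur (Sur)

theorem hh0 : ((hh 0 : ℕ) : ℝ) = 1 := by
  unfold hh
  norm_num

theorem s_ONEZ5 : S_ONEZ5 := by
  intro K d _ hK1 hK2 hd
  obtain ⟨c, hc⟩ := hd
  constructor
  · intro ι w h
    refine h.comap 1 (-5) 0 1 (d - 1) 0 (by norm_num) ?_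
    rintro ⟨i, j⟩ ⟨g1, g2, g3, g4⟩
    simp only at g1 g2 g3 g4
    obtain ⟨e, he1, he2, he3⟩ := hrow d j g1 g2
    rw [he2] at g3 g4
    rcases Nat.eq_zero_or_pos e with h0 | h0
    · subst h0
      rw [hh0] at g3 g4
      have i1 : (-1 : ℝ) < i := by linarith
      have i2 : (i : ℝ) < 1 := by linarith
      have i3 : -1 < i := by exact_mod_cast i1
      have i4 : i < 1 := by exact_mod_cast i2
      have i5 : i = 0 := by omega
      push_cast at he1
      right
      refine ⟨by simp only; omega, by simp only; omega, by simp only; omega⟩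
    · have h5 : 3 ≤ e := by omega
      left
      rw [hh3 e h5] at g3 g4
      refine ⟨by simp only; omega, ?_, ?_⟩
      · simp only
        push_cast
        rw [he3] at g3
        linarith
      · simp only
        push_cast
        rw [he3] at g4
        linarith
  · intro ι _ w h
    refine h.comap 1 (-5) 0 1 (d - 1) 0 (by norm_num) ?_
    rintro ⟨x, j⟩ ⟨g1, g2, g3⟩
    simp only at g1 g2 g3
    have hη : (0 : ℝ) ≤ ((d : ℝ) - 1) / 5 - j := by
      by_contra hc
      push Not at hc
      nlinarith
    have hj : 5 * j + 1 ≤ d := by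
      have h1 : 5 * (j : ℝ) + 1 ≤ d := by linarith
      exact_mod_cast h1
    obtain ⟨e, he1, he2, he3⟩ := hrow d j g1 (by omega)
    have h5 : 3 ≤ e := by omega
    refine ⟨(x - (d - 1) + 5 * j, j), ⟨g1, by simp only; omega, ?_, ?_⟩, ?_⟩
    · simp only
      rw [he2, hh3 e h5, he3]
      push_cast
      linarith
    · simp only
      rw [he2, hh3 e h5, he3]
      push_cast
      linarith
    · ext
      · simp only; ring
      · simp only; ring

theorem s_ONEX5 : S_ONEX5 := by
  intro K d _ hK1 hK2 hd
  constructor
  · intro ι w h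
    refine h.comap 1 (-5) 0 1 (d - 1) 0 (by norm_num) ?_
    rintro ⟨i, j⟩ ⟨g1, g2, g3, g4⟩
    simp only at g1 g2 g3 g4
    obtain ⟨e, he1, he2, he3⟩ := hrow d j g1 g2
    rw [he2] at g3 g4
    rcases (by omega : e = 1 ∨ 3 ≤ e) with h5 | h5
    · subst h5
      rw [hh1] at g3 g4
      push_cast at he1 he3
      have i1 : (-1 : ℝ) < i := by linarith
      have i2 : (i : ℝ) < 3 := by linarith
      have i3 : -1 < i := by exact_mod_cast i1
      have i4 : i < 3 := by exact_mod_cast i2
      have hx : (1 * i + -5 * j + (d - 1) : ℤ) = i := by linarith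
      have h8 : ((d : ℝ) - 1) / 5 - (0 * (i : ℝ) + 1 * (j : ℝ) + 0) = 0 := by linarith
      simp only
      rw [hx]
      rcases (by omega : i = 0 ∨ 1 ≤ i) with h7 | h7
      · left
        have h9 : (i : ℝ) = 0 := by exact_mod_cast h7
        refine ⟨by simp only; omega, ?_, ?_⟩
        · simp only
          push_cast
          rw [h8, h9]
          simp
        · simp only
          push_cast
          rw [h8, h9]
          simp
      · right
        refine ⟨by simp only; omega, by simp only; omega, by simp only; omega⟩
    · left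
      rw [hh3 e h5] at g3 g4
      refine ⟨by simp only; omega, ?_, ?_⟩
      · simp only
        push_cast
        rw [he3] at g3
        linarith
      · simp only
        push_cast
        rw [he3] at g4
        linarith
  · intro ι _ w h
    refine h.comap 1 (-5) 0 1 (d - 1) 0 (by norm_num) ?_
    rintro ⟨x, j⟩ hxj
    rcases hxj with ⟨g1, g2, g3⟩ | ⟨g1, g2, g3⟩
    · simp only at g1 g2 g3
      have hη : (0 : ℝ) ≤ ((d : ℝ) - 1) / 5 - j := by
        by_contra hc
        push Not at hc
        nlinarith
      have hj : 5 * j + 1 ≤ d := by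
        have h1 : 5 * (j : ℝ) + 1 ≤ d := by linarith
        exact_mod_cast h1
      obtain ⟨e, he1, he2, he3⟩ := hrow d j g1 (by omega)
      refine ⟨(x - (d - 1) + 5 * j, j), ⟨g1, by simp only; omega, ?_, ?_⟩, ?_⟩
      · simp only
        rw [he2]
        rcases (by omega : e = 1 ∨ 3 ≤ e) with h5 | h5
        · subst h5
          rw [hh1]
          push_cast at he3 ⊢
          have x1 : ((d : ℝ) - 1) / 5 - j = 0 := by linarith
          rw [x1] at g2
          linarith
        · rw [hh3 e h5, he3]
          push_cast
          linarith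
      · simp only
        rw [he2]
        rcases (by omega : e = 1 ∨ 3 ≤ e) with h5 | h5
        · subst h5
          rw [hh1]
          push_cast at he3 ⊢
          have x1 : ((d : ℝ) - 1) / 5 - j = 0 := by linarith
          rw [x1] at g3
          linarith
        · rw [hh3 e h5, he3]
          push_cast
          linarith
      · ext
        · simp only; ring
        · simp only; ring
    · simp only at g1 g2 g3
      obtain ⟨e, he1, he2, he3⟩ := hrow d j g2 (by omega)
      have h5 : e = 1 := by omega
      subst h5
      push_cast at he1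
      have h6 : x - (d - 1) + 5 * j = x := by linarith
      have x1 : (1 : ℝ) ≤ x := by
        have : 1 ≤ x := by omega
        exact_mod_cast this
      have x2 : (x : ℝ) ≤ 2 := by
        have : x ≤ 2 := by omega
        exact_mod_cast this
      refine ⟨(x - (d - 1) + 5 * j, j), ⟨g2, by simp only; omega, ?_, ?_⟩, ?_⟩
      · simp only
        rw [he2, hh1, h6]
        linarith
      · simp only
        rw [he2, hh1, h6]
        linarith
      · ext
        · simp only; ring
        · simp only; ring

end Pool.Agent.L7h10.QX
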